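import Pool.Agent.H58.FL.TargetsB
import Pool.Agent.H59.OP.Top
import Pool.Agent.H59.OP.Oct

/-!
MP_6a7a6f_gt: lower bounds for the filling radius of the quaternionic projective spaces and of the
Cayley plane (a theorem of Jung type). Definitions and targets of the board jun_modules.
-/

namespace Pool.Agent.H58.JU

noncomputable section

open Pool.Agent.H59 Pool.Agent.H48.FR Pool.Agent.H58.FL
open Pool.Agent.H59.OP (CA P2 tf Pres Oct)
open scoped RealInnerProductSpace Quaternion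

/-! ## Definitions -/

/-- the overlap of two points: the square of the cosine of the distance -/
def ov {M : Type} [MetricSpace M] (x y : M) : ℝ := Real.cos (dist x y) ^ 2

/-- the weighted sum of the overlaps with the points `x i` -/
def Fs {M : Type} [MetricSpace M] {N : ℕ} (t : Fin N → ℝ) (x : Fin N → M) (c : M) : ℝ :=
  ∑ i, t i * ov c (x i)

/-- weights -/
def Wt {N : ℕ} (t : Fin N → ℝ) : Prop := (∀ i, 0 ≤ t i) ∧ ∑ i, t i = 1

/-- the weighted sum of overlaps with points of pairwise distance less than `ρ` has at most one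
point of maximum -/
def UM (M : Type) [MetricSpace M] (ρ : ℝ) : Prop :=
  ∀ (N : ℕ) (t : Fin N → ℝ) (x : Fin N → M), Wt t →
    (∀ i j, 0 < t i → 0 < t j → dist (x i) (x j) < ρ) →
    ∀ c c', IsMx (Fs t x) c → IsMx (Fs t x) c' → c = c'

/-- the projective line through `c` and `c'`, seen from all points `x` of `M`: `p x` is the square
of the length of the projection of `x` to the line, `w x` is the direction of this projection,
as a point of the unit sphere of `W`, and `K` is the remaining part of the overlap -/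
structure Line (M W : Type) [MetricSpace M] [NormedAddCommGroup W] [InnerProductSpace ℝ W]
    (c c' : M) where
  p : M → ℝ
  w : M → W
  K : M → M → ℝ
  p_mem : ∀ x, 0 ≤ p x ∧ p x ≤ 1
  norm_w : ∀ x, ‖w x‖ = 1
  K_comm : ∀ x y, K x y = K y x
  K_pos : ∀ (N : ℕ) (t : Fin N → ℝ) (x : Fin N → M),
    0 ≤ ∑ i, ∑ j, t i * t j * K (x i) (x j)
  dec : ∀ x y, ov x y = p x * p y * ((1 + ⟪w x, w y⟫) / 2) + K x y
  p_left : p c = 1
  p_right : p c' = 1
  sur : ∀ v : W, ‖v‖ = 1 → ∃ y, p y = 1 ∧ w y = v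
  orth : ∀ x, p x = 0 → ∀ u, ov x u ≤ 1 - p u
  nor : ∀ x, 0 < p x → p x < 1 → ∃ (y z : M) (h : M → ℝ) (θ : ℝ) (γ : ℝ → M),
    p y = 1 ∧ γ θ = x ∧ Real.cos θ ^ 2 = p x ∧ (∀ u, ov z u ≤ 1 - p u) ∧
    ∀ φ u, ov (γ φ) u = Real.cos φ ^ 2 * ov y u + Real.sin φ ^ 2 * ov z u +
      2 * (Real.sin φ * Real.cos φ) * h u

/-! ## A. At most one point of maximum -/

/-- LPY: the overlap with a point of the line. -/
def T_LPY : Prop := ∀ (M W : Type) [MetricSpace M] [NormedAddCommGroup W]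
  [InnerProductSpace ℝ W] (c c' : M) (L : Line M W c c'),
  (∀ x y, L.p y = 1 → ov x y = L.p x * ((1 + ⟪L.w x, L.w y⟫) / 2)) ∧
  (∀ x y, L.p x = 1 → L.p y = 1 → L.w x = L.w y → dist x y ≤ Real.pi / 2 → x = y)

/-- LAM: if there are two points of maximum then the sum is constant on the line. -/
def T_LAM : Prop := ∀ (M W : Type) [MetricSpace M] [NormedAddCommGroup W]
  [InnerProductSpace ℝ W] (c c' : M) (L : Line M W c c') (N : ℕ) (t : Fin N → ℝ)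
  (x : Fin N → M), (∀ x y : M, dist x y ≤ Real.pi / 2) → c ≠ c' →
  IsMx (Fs t x) c → IsMx (Fs t x) c' →
  ∀ y, L.p y = 1 → Fs t x y = (∑ i, t i * L.p (x i)) / 2

/-- NRM: the bound of the sum by the critical point condition. -/
def T_NRM : Prop := ∀ (M W : Type) [MetricSpace M] [NormedAddCommGroup W]
  [InnerProductSpace ℝ W] (c c' : M) (L : Line M W c c') (N : ℕ) (t : Fin N → ℝ)
  (x : Fin N → M) (lam : ℝ), Wt t → (∀ y, L.p y = 1 → Fs t x y = lam) →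
  (∀ u, Fs t x u ≤ lam) →
  ∀ u, Fs t x u ≤ L.p u * lam + (1 - L.p u) * (1 - ∑ i, t i * L.p (x i))

/-- WIJ: the sum of the squares of the inner products of unit vectors. -/
def T_WIJ : Prop := ∀ (W : Type) [NormedAddCommGroup W] [InnerProductSpace ℝ W]
  [FiniteDimensional ℝ W] (N : ℕ) (b : Fin N → ℝ) (w : Fin N → W), (∀ i, ‖w i‖ = 1) →
  (∑ i, b i) ^ 2 ≤ (Module.finrank ℝ W : ℝ) * ∑ i, ∑ j, b i * b j * ⟪w i, w j⟫ ^ 2

/-- SPT: Schur's product theorem. -/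
def T_SPT : Prop := ∀ (N : ℕ) (A B : Fin N → Fin N → ℝ), (∀ i j, A i j = A j i) →
  (∀ i j, B i j = B j i) → (∀ t : Fin N → ℝ, 0 ≤ ∑ i, ∑ j, t i * t j * A i j) →
  (∀ t : Fin N → ℝ, 0 ≤ ∑ i, ∑ j, t i * t j * B i j) →
  ∀ t : Fin N → ℝ, 0 ≤ ∑ i, ∑ j, t i * t j * (A i j * B i j)

/-- SCH: the sum of the squares of the overlaps. -/
def T_SCH : Prop := ∀ (M W : Type) [MetricSpace M] [NormedAddCommGroup W]
  [InnerProductSpace ℝ W] [FiniteDimensional ℝ W] (c c' : M) (L : Line M W c c') (N : ℕ)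
  (t : Fin N → ℝ) (x : Fin N → M), Wt t → 0 < Module.finrank ℝ W →
  (∑ i, t i * L.p (x i)) ^ 4 *
      (((Module.finrank ℝ W : ℝ) + 1) / (4 * (Module.finrank ℝ W : ℝ))) ≤
    ∑ i, ∑ j, t i * t j * ov (x i) (x j) ^ 2

/-- NUM: the final inequality. -/
def T_NUM : Prop := ∀ (d ρ s Q : ℝ), 4 ≤ d → 0 ≤ ρ → ρ ≤ 1 → s ≤ (1 - ρ) / 2 →
  s ≤ (1 - ρ) * ((1 - ρ) / 2) + ρ * ρ → s ^ 2 ≤ Q → (1 - ρ) ^ 4 * ((d + 1) / (4 * d)) ≤ Q →
  (1 + (d - 1) / (2 * d)) * s - (d - 1) / (2 * d) ≤ Q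

/-- UMX: at most one point of maximum. -/
def T_UMX : Prop := ∀ (M W : Type) [MetricSpace M] [NormedAddCommGroup W]
  [InnerProductSpace ℝ W] [FiniteDimensional ℝ W], (∀ x y : M, dist x y ≤ Real.pi / 2) →
  (∀ c c' : M, c ≠ c' → Nonempty (Line M W c c')) → 4 ≤ Module.finrank ℝ W →
  UM M (Real.arccos (-(1 / (Module.finrank ℝ W : ℝ))) / 2)

/-! ## B. The retraction -/

/-- ARG: the unique point of maximum depends continuously on the parameter. -/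
def T_ARG : Prop := ∀ (X M : Type) [TopologicalSpace X] [MetricSpace M] [CompactSpace M]
  [Nonempty M] (g : X → M → ℝ), Continuous (fun q : X × M => g q.1 q.2) →
  (∀ x c c', IsMx (g x) c → IsMx (g x) c' → c = c') →
  ∃ r : C(X, M), ∀ x, IsMx (g x) (r x)

/-- PHI: a finite partition of unity on the neighbourhood. -/
def T_PHI : Prop := ∀ (M : Type) [MetricSpace M] [CompactSpace M] [BoundedSpace M]
  [Nonempty M] (ε δ : ℝ), 0 < ε → 0 < δ →
  ∃ (N : ℕ) (x : Fin N → M) (φ : UE M ε → Fin N → ℝ), Continuous φ ∧ (∀ f, Wt (φ f)) ∧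
    ∀ (f : UE M ε) (i : Fin N), 0 < φ f i → dist f.1 (kur M (x i)) < ε + δ

/-- RET: the left homotopy inverse. -/
def T_RET : Prop := ∀ (M : Type) [MetricSpace M] [CompactSpace M] [BoundedSpace M]
  [Nonempty M] (ρ : ℝ), UM M ρ → (∀ x y : M, dist x y ≤ Real.pi / 2) →
  ∀ (ε : ℝ) (hε : 0 < ε), 2 * ε < ρ →
  ∃ r : C(UE M ε, M), (r.comp (kc M ε hε)).Homotopic (ContinuousMap.id M)

/-- FIL: from the left homotopy inverse to the filling radius. -/
def T_FIL : Prop := ∀ (M : Type) [MetricSpace M] [CompactSpace M] [BoundedSpace M]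
  [Nonempty M] (ρ : ℝ) (d : ℕ), UM M ρ → (∀ x y : M, dist x y ≤ Real.pi / 2) →
  ¬ Van (d + 2) M → (∃ (ε : ℝ) (hε : 0 < ε), Kills (d + 1) (kc M ε hε)) →
  ρ / 2 ≤ FillR M (d + 1)

/-! ## C. Lines -/

/-- KPO: a positive kernel. -/
def T_KPO : Prop := ∀ (𝕜 : Type) [NormedDivisionRing 𝕜] [StarRing 𝕜] [NormedAlgebra ℝ 𝕜]
  [PF 𝕜] (m n N : ℕ) (a : Fin N → Fin m → 𝕜) (b : Fin N → Fin n → 𝕜) (t : Fin N → ℝ),
  0 ≤ ∑ i, ∑ j, t i * t j * re (hp (a i) (a j) * star (hp (b i) (b j)))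

/-- BES: Bessel's inequality for two and three vectors. -/
def T_BES : Prop := ∀ (𝕜 : Type) [NormedDivisionRing 𝕜] [StarRing 𝕜] [NormedAlgebra ℝ 𝕜]
  [PF 𝕜] (n : ℕ) (e₁ e₂ e₃ u : Fin n → 𝕜), nrm e₁ = 1 → nrm e₂ = 1 → nrm e₃ = 1 →
  hp e₁ e₂ = 0 → hp e₁ e₃ = 0 → hp e₂ e₃ = 0 →
  ‖hp u e₁‖ ^ 2 + ‖hp u e₂‖ ^ 2 + ‖hp u e₃‖ ^ 2 ≤ nrm u ^ 2

/-- BE2: decomposition of a unit vector with respect to two orthonormal vectors. -/
def T_BE2 : Prop := ∀ (𝕜 : Type) [NormedDivisionRing 𝕜] [StarRing 𝕜] [NormedAlgebra ℝ 𝕜]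
  [PF 𝕜] (n : ℕ) (e₁ e₂ : Fin n → 𝕜), nrm e₁ = 1 → nrm e₂ = 1 → hp e₁ e₂ = 0 →
  ∀ x : Fin n → 𝕜, ∃ v : Fin n → 𝕜, x = hp x e₁ • e₁ + hp x e₂ • e₂ + v ∧
    hp v e₁ = 0 ∧ hp v e₂ = 0 ∧ nrm x ^ 2 = ‖hp x e₁‖ ^ 2 + ‖hp x e₂‖ ^ 2 + nrm v ^ 2

/-- HPL: lines in the quaternionic projective space. -/
def T_HPL : Prop := ∀ (n : ℕ) (c c' : PP ℍ[ℝ] n), c ≠ c' →
  Nonempty (Line (PP ℍ[ℝ] n) (WithLp 2 (ℝ × ℍ[ℝ])) c c')

/-- OPW: two points of the plane may be moved to the base point and a point of a standard line. -/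
def T_OPW : Prop := ∀ (O : Type) [NormedAddCommGroup O] [InnerProductSpace ℝ O] [CA O]
  (c c' : P2 O), ∃ φ : P2 O → P2 O, Pres φ ∧ φ c = Pool.Agent.H59.OP.bp O ∧ (φ c').c = 0

/-- SUJ: an isometry of a compact metric space into itself is onto. -/
def T_SUJ : Prop := ∀ (M : Type) [MetricSpace M] [CompactSpace M] (φ : M → M),
  (∀ x y, dist (φ x) (φ y) = dist x y) → Function.Surjective φ

/-- LTR: transport of a line by an isometry. -/
def T_LTR : Prop := ∀ (M W : Type) [MetricSpace M] [NormedAddCommGroup W]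
  [InnerProductSpace ℝ W] (φ : M → M), (∀ x y, dist (φ x) (φ y) = dist x y) →
  Function.Surjective φ → ∀ c c' : M, Nonempty (Line M W (φ c) (φ c')) →
  Nonempty (Line M W c c')

/-- OP0: the standard line in the projective plane over `O`. -/
def T_OP0 : Prop := ∀ (O : Type) [NormedAddCommGroup O] [InnerProductSpace ℝ O] [CA O]
  (B : P2 O), B.c = 0 → Nonempty (Line (P2 O) (WithLp 2 (ℝ × O)) (Pool.Agent.H59.OP.bp O) B)

/-- OPL: lines in the projective plane over `O`. -/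
def T_OPL : Prop := ∀ (O : Type) [NormedAddCommGroup O] [InnerProductSpace ℝ O] [CA O]
  [FiniteDimensional ℝ O] (c c' : P2 O), Nonempty (Line (P2 O) (WithLp 2 (ℝ × O)) c c')

/-! ## D. Homology -/

/-- MVI: the intersection of two open sets. -/
def T_MVI : Prop := ∀ (Y : Type) [TopologicalSpace Y] (O₁ O₂ : Set Y), IsOpen O₁ → IsOpen O₂ →
  O₁ ∪ O₂ = Set.univ → ∀ n : ℕ, Van n O₁ → Van n O₂ → Van (n + 1) Y → Van n ↥(O₁ ∩ O₂)

/-- PNN: the punctured space has nonzero homology. -/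
def T_PNN : Prop := ∀ m : ℕ, ¬ Van m (Pn m)

/-- CMH: continuity of the projection to the quaternionic projective space. -/
def T_CMH : Prop := ∀ (A : Type) [TopologicalSpace A] (n : ℕ) (v : A → Fin (n + 1) → ℍ[ℝ])
  (hv : ∀ a, v a ≠ 0), Continuous v → Continuous fun a => (PP.mk (v a) (hv a) : HPn n)

/-- HPO: two open sets of the quaternionic projective space. -/
def T_HPO : Prop := ∀ n : ℕ, ∃ O₁ O₂ : Set (HPn (n + 1)), IsOpen O₁ ∧ IsOpen O₂ ∧
  O₁ ∪ O₂ = Set.univ ∧ (∀ m : ℕ, Van m (HPn n) → Van m O₁) ∧ (∀ m : ℕ, Van m O₂) ∧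
  (∀ m : ℕ, Van m (Pn (4 * (n + 1))) → Van m ↥(O₁ ∩ O₂)) ∧
  (∀ m : ℕ, Van m ↥(O₁ ∩ O₂) → Van m (Pn (4 * (n + 1))))

/-- HPV: the top homology of the quaternionic projective space. -/
def T_HPV : Prop := ∀ n : ℕ, (∀ m : ℕ, 4 * n + 2 ≤ m → Van m (HPn n)) ∧
  (1 ≤ n → ¬ Van (4 * n + 1) (HPn n))

/-- OPO: two open sets of the projective plane over `O`. -/
def T_OPO : Prop := ∀ (O : Type) [NormedAddCommGroup O] [InnerProductSpace ℝ O] [CA O]
  [FiniteDimensional ℝ O], ∃ O₁ O₂ : Set (P2 O), IsOpen O₁ ∧ IsOpen O₂ ∧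
  O₁ ∪ O₂ = Set.univ ∧ (∀ m : ℕ, Van m (Pn (Module.finrank ℝ O + 1)) → Van m O₁) ∧
  (∀ m : ℕ, Van m O₂) ∧
  (∀ m : ℕ, Van m ↥(O₁ ∩ O₂) → Van m (Pn (2 * Module.finrank ℝ O)))

/-- OPV: the top homology of the Cayley plane. -/
def T_OPV : Prop := ¬ Van 17 (P2 Oct)

end

end Pool.Agent.H58.JU
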