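import Pool.Agent.H12.JU.ARG
import Pool.Agent.H38.JU.BE2
import Pool.Agent.H36.JU.BES
import Pool.Agent.H86.JU.CMH
import Pool.Agent.H35.FL.HTP
import Pool.Agent.H13.FL.HEQ
import Pool.Agent.H72.FL.CTR
import Pool.Agent.H26.JU.PHI
import Pool.Agent.H35.JU.RET
import Pool.Agent.H79.FL.KIL
import Pool.Agent.H26.JU.FIL
import Pool.Agent.H13.JU.KPO
import Pool.Agent.H69.JU.HPL
import Pool.Agent.H1.JU.HPO
import Pool.Agent.H79.FL.MVL
import Pool.Agent.H69.JU.MVI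
import Pool.Agent.H67.FL.PUN
import Pool.Agent.H86.JU.PNN
import Pool.Agent.H1.JU.HPV
import Pool.Agent.H14.JU.LPY
import Pool.Agent.H14.JU.LAM
import Pool.Agent.H36.JU.LTR
import Pool.Agent.H76.JU.NRM
import Pool.Agent.H11.JU.NUM
import Pool.Agent.H17.JU.OP0
import Pool.Agent.H1.JU.OPW
import Pool.Agent.H69.JU.SUJ
import Pool.Agent.H17.JU.OPL
import Pool.Agent.H17.JU.OPO
import Pool.Agent.H50.JU.OPV
import Pool.Agent.H36.JU.WIJ
import Pool.Agent.H40.JU.SPT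
import Pool.Agent.H38.JU.SCH
import Pool.Agent.H89.JU.UMX

/-!
MP_6a7a6f_gt: composition of the rows of the board jun_modules.
-/

namespace Pool.Agent.H58.JU.A

open Pool.Agent.H58.FL Pool.Agent.H58.JU

theorem aARG : T_ARG := Pool.Agent.H12.JU.pf_ARG

theorem aBE2 : T_BE2 := Pool.Agent.H38.JU.pf_BE2

theorem aBES : T_BES := Pool.Agent.H36.JU.pf_BES aBE2

theorem aCMH : T_CMH := Pool.Agent.H86.JU.pf_CMH

theorem aHTP : T_HTP := Pool.Agent.H35.FL.pf_HTP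

theorem aHEQ : T_HEQ := Pool.Agent.H13.FL.pf_HEQ aHTP

theorem aCTR : T_CTR := Pool.Agent.H72.FL.pf_CTR aHEQ

theorem aPHI : T_PHI := Pool.Agent.H26.JU.pf_PHI

theorem aRET : T_RET := Pool.Agent.H35.JU.pf_RET aARG aPHI

theorem aKIL : T_KIL := Pool.Agent.H79.FL.pf_KIL

theorem aFIL : T_FIL := Pool.Agent.H26.JU.pf_FIL aRET aHTP aKIL

theorem aKPO : T_KPO := Pool.Agent.H13.JU.pf_KPO

theorem aHPL : T_HPL := Pool.Agent.H69.JU.pf_HPL aKPO aBE2 aBES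

theorem aHPO : T_HPO := Pool.Agent.H1.JU.pf_HPO aHEQ aCTR aCMH

theorem aMVL : T_MVL := Pool.Agent.H79.FL.MVL.pf_MVL

theorem aMVI : T_MVI := Pool.Agent.H69.JU.pf_MVI

theorem aPUN : T_PUN := Pool.Agent.H67.FL.pf_PUN aHEQ aCTR aMVL

theorem aPNN : T_PNN := Pool.Agent.H86.JU.pf_PNN aMVI aHEQ aCTR

theorem aHPV : T_HPV := Pool.Agent.H1.JU.pf_HPV aMVL aMVI aPUN aPNN aCTR aHPO

theorem aLPY : T_LPY := Pool.Agent.H14.JU.pf_LPY

theorem aLAM : T_LAM := Pool.Agent.H14.JU.pf_LAM aLPY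

theorem aLTR : T_LTR := Pool.Agent.H36.JU.pf_LTR

theorem aNRM : T_NRM := Pool.Agent.H76.JU.pf_NRM

theorem aNUM : T_NUM := Pool.Agent.H11.JU.pf_NUM

theorem aOP0 : T_OP0 := Pool.Agent.H17.JU.pf_OP0

theorem aOPW : T_OPW := Pool.Agent.H1.JU.pf_OPW

theorem aSUJ : T_SUJ := Pool.Agent.H69.JU.pf_SUJ

theorem aOPL : T_OPL := Pool.Agent.H17.JU.pf_OPL aOPW aSUJ aLTR aOP0

theorem aOPO : T_OPO := Pool.Agent.H17.JU.pf_OPO aHEQ aCTR

theorem aOPV : T_OPV := Pool.Agent.H50.JU.pf_OPV aMVI aPUN aPNN aOPO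

theorem aWIJ : T_WIJ := Pool.Agent.H36.JU.pf_WIJ

theorem aSPT : T_SPT := Pool.Agent.H40.JU.pf_SPT

theorem aSCH : T_SCH := Pool.Agent.H38.JU.pf_SCH aWIJ aSPT

theorem aUMX : T_UMX := Pool.Agent.H89.JU.pf_UMX aLAM aNRM aSCH aNUM

end Pool.Agent.H58.JU.A
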