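import Pool.Agent.H58.JU.Targets
import Pool.Agent.H59.OP.Fin
import Pool.Agent.H48.FR.All
import Pool.Agent.H42.FR.SP

/-!
MP_6a7a6f_gt: lower bounds for the filling radius of the quaternionic projective spaces and of the
Cayley plane, conclusion from the targets of the board.
-/

namespace Pool.Agent.H58.JU

noncomputable section

open Pool.Agent.H59 Pool.Agent.H48.FR Pool.Agent.H58.FL
open Pool.Agent.H59.OP (CA P2 tf Pres Oct OP2)
open scoped RealInnerProductSpace Quaternion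

/-- the statement for the space `M` of dimension `d` and the radius `ρ` -/
def LowerBound (M : Type) [MetricSpace M] [BoundedSpace M] (d : ℕ) (ρ : ℝ) : Prop :=
  (∀ (ε : ℝ) (hε : 0 < ε), ε < ρ →
    ∃ r : C(UE M ε, M), (r.comp (kc M ε hε)).Homotopic (ContinuousMap.id M)) ∧
  ρ ≤ FillR M d

lemma um_div {a b : ℝ} (h : a / 2 = b) : a / 4 = b / 2 := by
  rw [← h]; ring

theorem lower (hRET : T_RET) (hFIL : T_FIL) (M : Type) [MetricSpace M] [CompactSpace M]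
    [BoundedSpace M] [Nonempty M] (d : ℕ) (a : ℝ) (hum : UM M (a / 2))
    (hd : ∀ x y : M, dist x y ≤ Real.pi / 2) (hv : ¬ Van (d + 2) M)
    (hk : ∃ (ε : ℝ) (hε : 0 < ε), Kills (d + 1) (kc M ε hε)) :
    LowerBound M (d + 1) (a / 4) := by
  refine ⟨fun ε hε hlt => hRET M (a / 2) hum hd ε hε (by linarith), ?_⟩
  have h := hFIL M (a / 2) d hum hd hv hk
  have e : a / 4 = a / 2 / 2 := by ring
  rw [e]
  exact h

theorem compact_PP (𝕜 : Type) [NormedDivisionRing 𝕜] [StarRing 𝕜] [NormedAlgebra ℝ 𝕜] [PF 𝕜]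
    (n : ℕ) : CompactSpace (PP 𝕜 n) := by
  obtain ⟨hcS, hcQ, hπc, hπs⟩ := Pool.Agent.H42.FR.sp 𝕜 n
  have : Set.range (prS : Sph 𝕜 n → PP 𝕜 n) = Set.univ := hπs.range_eq
  rw [← isCompact_univ_iff, ← this]
  exact isCompact_range hπc

lemma finrank_HW : Module.finrank ℝ (WithLp 2 (ℝ × ℍ[ℝ])) = 5 := by
  have h4 : Module.finrank ℝ ℍ[ℝ] = 4 := Quaternion.finrank_eq_four
  rw [(WithLp.linearEquiv 2 ℝ (ℝ × ℍ[ℝ])).finrank_eq, Module.finrank_prod, h4,
    Module.finrank_self]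

lemma finite_HW : FiniteDimensional ℝ (WithLp 2 (ℝ × ℍ[ℝ])) :=
  Module.finite_of_finrank_pos (by rw [finrank_HW]; norm_num)

theorem um_HP (hUMX : T_UMX) (hHPL : T_HPL) (n : ℕ) :
    UM (PP ℍ[ℝ] n) (Real.arccos (-(1 / 5)) / 2) := by
  have h0 := finite_HW
  have h := hUMX (PP ℍ[ℝ] n) (WithLp 2 (ℝ × ℍ[ℝ])) (fun x y => dist_le_pi_div_two x y)
    (fun c c' hc => hHPL n c c' hc) (by rw [finrank_HW]; norm_num)
  rw [finrank_HW] at h
  exact_mod_cast h

theorem quaternion (hUMX : T_UMX) (hRET : T_RET) (hFIL : T_FIL) (hHPL : T_HPL) (hHPV : T_HPV)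
    (n : ℕ) (hn : 1 ≤ n) : LowerBound (HPn n) (4 * n) (Real.arccos (-(1 / 5)) / 4) := by
  obtain ⟨d, hd⟩ : ∃ d, 4 * n = d + 1 := ⟨4 * n - 1, by omega⟩
  have h1 : CompactSpace (HPn n) := compact_PP ℍ[ℝ] n
  have h2 : Nonempty (HPn n) := ⟨bp ℍ[ℝ] n⟩
  have h3 : ¬ Van (d + 2) (HPn n) := by
    have := (hHPV n).2 hn
    rwa [show 4 * n + 1 = d + 2 by omega] at this
  have h4 : ∃ (ε : ℝ) (hε : 0 < ε), Kills (d + 1) (kc (HPn n) ε hε) := by
    have hr := (rad_pos_lt (m := n) hn)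
    have hp := Real.pi_pos
    have h0 : 0 < Real.pi / 6 := by positivity
    have hdim : Module.finrank ℝ ℍ[ℝ] * n <
        Nat.multichoose (Module.finrank ℝ ℍ[ℝ]) (2 * n + 1) := by
      have h4 : Module.finrank ℝ ℍ[ℝ] = 4 := Quaternion.finrank_eq_four
      rw [h4, Nat.multichoose_eq]
      have e : 4 + (2 * n + 1) - 1 = 2 * n + 4 := by omega
      rw [e]
      have e2 : Nat.choose (2 * n + 4) (2 * n + 1) = Nat.choose (2 * n + 4) 3 :=
        Nat.choose_symm_of_eq_add (by omega)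
      rw [e2, show 2 * n + 4 = (2 * n + 3) + 1 by omega, Nat.choose_succ_succ,
        Nat.choose_two_right]
      have e3 : 4 * n < (2 * n + 3) * (2 * n + 3 - 1) / 2 := by
        rw [show 2 * n + 3 - 1 = 2 * (n + 1) by omega,
          show (2 * n + 3) * (2 * (n + 1)) = ((2 * n + 3) * (n + 1)) * 2 by ring,
          Nat.mul_div_cancel _ (by norm_num)]
        nlinarith
      omega
    obtain ⟨h0', hk⟩ := bounds_of_nullhomotopic (M := PP ℍ[ℝ] n) (d := 4 * n) (by omega) h0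
      (nullhomotopic (𝕜 := ℍ[ℝ]) hn hn hdim h0 hr.2)
    rw [hd] at hk
    exact ⟨Real.pi / 6, h0', hk⟩
  rw [hd]
  exact lower hRET hFIL (HPn n) d (Real.arccos (-(1 / 5))) (um_HP hUMX hHPL n)
    (fun x y => dist_le_pi_div_two (𝕜 := ℍ[ℝ]) x y) h3 h4

lemma finrank_OW : Module.finrank ℝ (WithLp 2 (ℝ × Oct)) = 9 := by
  have h4 : Module.finrank ℝ Oct = 8 := Pool.Agent.H59.OP.oct_finrank
  rw [(WithLp.linearEquiv 2 ℝ (ℝ × Oct)).finrank_eq, Module.finrank_prod, h4,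
    Module.finrank_self]

theorem um_OP (hUMX : T_UMX) (hOPL : T_OPL) :
    UM (P2 Oct) (Real.arccos (-(1 / 9)) / 2) := by
  have h0 : FiniteDimensional ℝ (WithLp 2 (ℝ × Oct)) :=
    Module.finite_of_finrank_pos (by rw [finrank_OW]; norm_num)
  have h := hUMX (P2 Oct) (WithLp 2 (ℝ × Oct)) (fun x y => Pool.Agent.H59.OP.dist_le x y)
    (fun c c' hc => hOPL Oct c c') (by rw [finrank_OW]; norm_num)
  rw [finrank_OW] at h
  exact_mod_cast h

theorem cayley (hUMX : T_UMX) (hRET : T_RET) (hFIL : T_FIL) (hOPL : T_OPL) (hOPV : T_OPV) :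
    LowerBound OP2 16 (Real.arccos (-(1 / 9)) / 4) := by
  have h1 : CompactSpace OP2 := inferInstanceAs (CompactSpace (P2 Oct))
  have h2 : Nonempty OP2 := ⟨Pool.Agent.H59.OP.bp Oct⟩
  have h4 : ∃ (ε : ℝ) (hε : 0 < ε), Kills (15 + 1) (kc OP2 ε hε) := by
    have hr := (rad_pos_lt (m := 1) le_rfl)
    rw [rad_one] at hr
    have hp := Real.pi_pos
    have h0 : 0 < Real.pi / 6 := by positivity
    obtain ⟨h0', hk⟩ := bounds_of_nullhomotopic (M := OP2) (d := 16) (by norm_num) h0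
      (Pool.Agent.H59.OP.nullhomotopic_OP2 _ h0 hr.2)
    exact ⟨Real.pi / 6, h0', hk⟩
  exact lower hRET hFIL OP2 15 (Real.arccos (-(1 / 9))) (um_OP hUMX hOPL)
    (fun x y => Pool.Agent.H59.OP.dist_le (O := Oct) x y) hOPV h4

end

end Pool.Agent.H58.JU
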